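import Mathlib
import Pool.Agent.Helper5.NE.Stmts

/-! P17: the nuclear embedding. -/

namespace Pool.Agent.Helper5.NE

open scoped InnerProductSpace ComplexConjugate ENNReal Topology
open Filter

noncomputable section

theorem GenI_mono {F : Type} (A : F → Set ℕ) (bd : ∀ f, BD (A f)) {I J : Finset F} (h : I ⊆ J) :
    GenI A bd I ⊆ GenI A bd J := by
  rintro T (⟨s, h1⟩ | ⟨χ, h1⟩ | ⟨ξ, η, h1⟩ | ⟨f, hf, j, h1⟩ | ⟨f, hf, j, h1⟩)
  · exact Or.inl ⟨s, h1⟩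
  · exact Or.inr (Or.inl ⟨χ, h1⟩)
  · exact Or.inr (Or.inr (Or.inl ⟨ξ, η, h1⟩))
  · exact Or.inr (Or.inr (Or.inr (Or.inl ⟨f, h hf, j, h1⟩)))
  · exact Or.inr (Or.inr (Or.inr (Or.inr ⟨f, h hf, j, h1⟩)))

theorem adjoin_GenI_mono {F : Type} (A : F → Set ℕ) (bd : ∀ f, BD (A f)) {I J : Finset F}
    (h : I ⊆ J) : StarAlgebra.adjoin ℂ (GenI A bd I) ≤ StarAlgebra.adjoin ℂ (GenI A bd J) :=
  StarAlgebra.adjoin_le ((GenI_mono A bd h).trans (StarAlgebra.subset_adjoin ℂ _))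

open Classical in
theorem exists_adjoin_GenI {F : Type} (A : F → Set ℕ) (bd : ∀ f, BD (A f))
    (T : L2 X →L[ℂ] L2 X) (hT : T ∈ StarAlgebra.adjoin ℂ (Gen A bd)) :
    ∃ I : Finset F, T ∈ StarAlgebra.adjoin ℂ (GenI A bd I) := by
  induction hT using StarAlgebra.adjoin_induction with
  | mem x hx =>
    rcases hx with ⟨s, h1⟩ | ⟨χ, h1⟩ | ⟨ξ, η, h1⟩ | ⟨f, j, h1⟩ | ⟨f, j, h1⟩
    · exact ⟨∅, StarAlgebra.subset_adjoin ℂ _ (Or.inl ⟨s, h1⟩)⟩
    · exact ⟨∅, StarAlgebra.subset_adjoin ℂ _ (Or.inr (Or.inl ⟨χ, h1⟩))⟩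
    · exact ⟨∅, StarAlgebra.subset_adjoin ℂ _ (Or.inr (Or.inr (Or.inl ⟨ξ, η, h1⟩)))⟩
    · exact ⟨{f}, StarAlgebra.subset_adjoin ℂ _
        (Or.inr (Or.inr (Or.inr (Or.inl ⟨f, Finset.mem_singleton_self f, j, h1⟩))))⟩
    · exact ⟨{f}, StarAlgebra.subset_adjoin ℂ _
        (Or.inr (Or.inr (Or.inr (Or.inr ⟨f, Finset.mem_singleton_self f, j, h1⟩))))⟩
  | algebraMap r => exact ⟨∅, algebraMap_mem _ r⟩
  | add x y _ _ hx hy =>
    obtain ⟨I, hI⟩ := hx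
    obtain ⟨J, hJ⟩ := hy
    exact ⟨I ∪ J, add_mem (adjoin_GenI_mono A bd Finset.subset_union_left hI)
      (adjoin_GenI_mono A bd Finset.subset_union_right hJ)⟩
  | mul x y _ _ hx hy =>
    obtain ⟨I, hI⟩ := hx
    obtain ⟨J, hJ⟩ := hy
    exact ⟨I ∪ J, mul_mem (adjoin_GenI_mono A bd Finset.subset_union_left hI)
      (adjoin_GenI_mono A bd Finset.subset_union_right hJ)⟩
  | star x _ hx =>
    obtain ⟨I, hI⟩ := hx
    exact ⟨I, star_mem hI⟩

theorem conj_mem_NN (h3 : NNAlgStmt) {F : Type} (A : F → Set ℕ) (bd : ∀ f, BD (A f))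
    (I : Finset F) (V : L2 X →L[ℂ] L2 X) (par π : X → X) (hV : star V = V) (hVV : V * V = 1)
    (h2 : ∀ T ∈ GenI A bd I, V * T * V ∈ NN par π)
    (T : L2 X →L[ℂ] L2 X) (hT : T ∈ StarAlgebra.adjoin ℂ (GenI A bd I)) :
    V * T * V ∈ NN par π := by
  obtain ⟨h4, h5, h6⟩ := h3 par π
  induction hT using StarAlgebra.adjoin_induction with
  | mem x hx => exact h2 x hx
  | algebraMap r =>
    rw [Algebra.algebraMap_eq_smul_one, mul_smul_comm, mul_one, smul_mul_assoc, hVV]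
    exact Submodule.smul_mem _ _ h4
  | add x y _ _ hx hy =>
    rw [mul_add, add_mul]
    exact Submodule.add_mem _ hx hy
  | mul x y _ _ hx hy =>
    have e : V * (x * y) * V = (V * x * V) * (V * y * V) := by
      calc V * (x * y) * V = V * x * 1 * y * V := by simp only [mul_one, mul_assoc]
        _ = (V * x * V) * (V * y * V) := by rw [← hVV]; simp only [mul_assoc]
    rw [e]
    exact h5 _ hx _ hy
  | star x _ hx =>
    have e : V * star x * V = star (V * x * V) := by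
      rw [star_mul, star_mul, hV, mul_assoc]
    rw [e]
    exact h6 _ hx

/-- conjugation by `V` -/
def cjV (V : L2 X →L[ℂ] L2 X) : (L2 X →L[ℂ] L2 X) →ₗ[ℂ] (L2 X →L[ℂ] L2 X) where
  toFun T := V * T * V
  map_add' S T := by rw [mul_add, add_mul]
  map_smul' r T := by rw [mul_smul_comm, smul_mul_assoc, RingHom.id_apply]

theorem cjV_apply (V T : L2 X →L[ℂ] L2 X) : cjV V T = V * T * V := rfl

theorem norm_cjV_le (V : L2 X →L[ℂ] L2 X) (hV : star V = V) (hVV : V * V = 1)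
    (T : L2 X →L[ℂ] L2 X) : ‖cjV V T‖ ≤ ‖T‖ := by
  have h1 : ‖V‖ * ‖V‖ ≤ 1 := by
    rw [← CStarRing.norm_star_mul_self, hV, hVV]
    exact ContinuousLinearMap.norm_id_le
  have h2 : ‖V‖ ≤ 1 := by nlinarith [norm_nonneg V]
  rw [cjV_apply]
  calc ‖V * T * V‖ ≤ ‖V‖ * ‖T‖ * ‖V‖ :=
        (norm_mul_le _ _).trans (mul_le_mul_of_nonneg_right (norm_mul_le _ _) (norm_nonneg _))
    _ ≤ 1 * ‖T‖ * 1 := by gcongr
    _ = ‖T‖ := by ring

theorem ccp_cjV (V : L2 X →L[ℂ] L2 X) (hV : star V = V) (hVV : V * V = 1) : CCP (cjV V) := by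
  refine ⟨norm_cjV_le V hV hVV, ?_⟩
  intro n y
  refine ⟨y.map (cjV V), ?_⟩
  ext1 i j
  simp only [Matrix.map_apply, Matrix.mul_apply, Matrix.star_apply, map_sum]
  apply Finset.sum_congr rfl
  intro l _
  simp only [cjV_apply]
  rw [star_mul, star_mul, hV]
  calc V * (star (y l i) * y l j) * V = V * star (y l i) * 1 * y l j * V := by
        simp only [mul_one, mul_assoc]
    _ = V * (star (y l i) * V) * (V * y l j * V) := by rw [← hVV]; simp only [mul_assoc]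

theorem CCP.comp {A B C : Type} [NonUnitalCStarAlgebra A] [NonUnitalCStarAlgebra B]
    [NonUnitalCStarAlgebra C] {f : B →ₗ[ℂ] C} {g : A →ₗ[ℂ] B} (hf : CCP f) (hg : CCP g) :
    CCP (f.comp g) := by
  refine ⟨fun a => (hf.1 (g a)).trans (hg.1 a), ?_⟩
  intro n y
  obtain ⟨z, hz⟩ := hg.2 n y
  obtain ⟨w, hw⟩ := hf.2 n z
  refine ⟨w, ?_⟩
  rw [← hw, ← hz]
  ext1 i j
  rfl

open Classical in
theorem exact (h1 : FactStmt) (h2 : RotStmt) (h3 : NNAlgStmt) : ExactStmt := by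
  intro F A bd hAD hEv G hG ε hε
  have hε3 : 0 < ε / 3 := by positivity
  have hap : ∀ T : L2 X →L[ℂ] L2 X, ∃ T' : L2 X →L[ℂ] L2 X, ∃ I : Finset F,
      T ∈ G → (T' ∈ StarAlgebra.adjoin ℂ (GenI A bd I) ∧ ‖T - T'‖ < ε / 3) := by
    intro T
    by_cases hT : T ∈ G
    · have h4 : T ∈ closure ((StarAlgebra.adjoin ℂ (Gen A bd) :
          StarSubalgebra ℂ (L2 X →L[ℂ] L2 X)) : Set (L2 X →L[ℂ] L2 X)) := by
        have := hG T hT
        rw [Alg] at this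
        rwa [← StarSubalgebra.topologicalClosure_coe]
      obtain ⟨T', hT', hd⟩ := Metric.mem_closure_iff.1 h4 (ε / 3) hε3
      obtain ⟨I, hI⟩ := exists_adjoin_GenI A bd T' hT'
      exact ⟨T', I, fun _ => ⟨hI, by rwa [← dist_eq_norm]⟩⟩
    · exact ⟨0, ∅, fun h => absurd h hT⟩
  choose T' I hTI using hap
  set J : Finset F := G.biUnion I with hJ
  have hTJ : ∀ T ∈ G, T' T ∈ StarAlgebra.adjoin ℂ (GenI A bd J) := fun T hT =>
    adjoin_GenI_mono A bd (Finset.subset_biUnion_of_mem I hT) (hTI T hT).1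
  obtain ⟨V, par, π, hV, hVV, htree, hgen⟩ := h2 F A bd hAD hEv J
  have hNN : ∀ S ∈ G.image (fun T => V * T' T * V), S ∈ NN par π := by
    intro S hS
    obtain ⟨T, hT, rfl⟩ := Finset.mem_image.1 hS
    exact conj_mem_NN h3 A bd J V par π hV hVV hgen _ (hTJ T hT)
  obtain ⟨D, iD, iF, φ0, ψ0, hφ, hψ, happ⟩ := h1 par π htree _ hNN (ε / 3) hε3
  refine ⟨D, iD, iF, φ0.comp (cjV V), (cjV V).comp ψ0, hφ.comp (ccp_cjV V hV hVV),
    (ccp_cjV V hV hVV).comp hψ, ?_⟩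
  intro T hT
  have e1 : T = cjV V (V * T * V) := by
    rw [cjV_apply]
    calc T = 1 * T * 1 := by rw [one_mul, mul_one]
      _ = V * (V * T * V) * V := by rw [← hVV]; simp only [mul_assoc]
  have e2 : ((cjV V).comp ψ0) ((φ0.comp (cjV V)) T) - T =
      cjV V (ψ0 (φ0 (cjV V (T - T' T)))) + cjV V (ψ0 (φ0 (V * T' T * V)) - V * T' T * V)
        - (T - T' T) := by
    have e3 : cjV V (V * T' T * V) = T' T := by
      rw [cjV_apply]
      calc V * (V * T' T * V) * V = (V * V) * T' T * (V * V) := by simp only [mul_assoc]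
        _ = T' T := by rw [hVV, one_mul, mul_one]
    have e4 : cjV V (T - T' T) = cjV V T - V * T' T * V := by rw [map_sub]; rfl
    simp only [LinearMap.comp_apply]
    rw [e4, map_sub φ0, map_sub ψ0, map_sub (cjV V), map_sub (cjV V), e3]
    abel
  rw [e2]
  have b1 : ‖cjV V (ψ0 (φ0 (cjV V (T - T' T))))‖ ≤ ‖T - T' T‖ :=
    (norm_cjV_le V hV hVV _).trans ((hψ.1 _).trans ((hφ.1 _).trans (norm_cjV_le V hV hVV _)))
  have b2 : ‖cjV V (ψ0 (φ0 (V * T' T * V)) - V * T' T * V)‖ < ε / 3 :=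
    (norm_cjV_le V hV hVV _).trans_lt (happ _ (Finset.mem_image_of_mem _ hT))
  have b3 := (hTI T hT).2
  calc ‖cjV V (ψ0 (φ0 (cjV V (T - T' T)))) + cjV V (ψ0 (φ0 (V * T' T * V)) - V * T' T * V)
        - (T - T' T)‖ ≤ ‖cjV V (ψ0 (φ0 (cjV V (T - T' T))))‖ +
        ‖cjV V (ψ0 (φ0 (V * T' T * V)) - V * T' T * V)‖ + ‖T - T' T‖ :=
        (norm_sub_le _ _).trans (add_le_add_left (norm_add_le _ _) _)
    _ < ε := by linarith

end

end Pool.Agent.Helper5.NE
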